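import Mathlib
import Pool.Agent.Y18.LC.Stm

/-!
# LC-CLS (project LC of helper18): elements of a number field with divisor divisible by `N`
-/

set_option autoImplicit false

namespace Pool.Agent.Y847.LC

open Finset NumberField IsDedekindDomain Pool.Agent.Y18.LC
open scoped nonZeroDivisors

/-- if all the valuations of the nonzero integer `x` are divisible by `N`, then `(x)` is the `N`-th
power of an ideal -/
theorem span_pow (k : Type) [Field k] [NumberField k] (N : ℕ) (x : 𝓞 k) (hx : x ≠ 0)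
    (h : ∀ v : HeightOneSpectrum (𝓞 k), ∃ j : ℤ,
      v.valuation k (x : k) = WithZero.exp (N * j)) :
    ∃ J : Ideal (𝓞 k), Ideal.span {x} = J ^ N := by
  classical
  have h0 : Ideal.span {x} ≠ (0 : Ideal (𝓞 k)) := by
    simpa using hx
  have h1 : Associates.mk (Ideal.span {x} : Ideal (𝓞 k)) ≠ 0 := Associates.mk_ne_zero.2 h0
  obtain ⟨b, hb⟩ := Associates.is_pow_of_dvd_count h1 (k := N) (by
    intro p hp
    obtain ⟨P, rfl⟩ := Associates.mk_surjective p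
    have hP : Irreducible P := Associates.irreducible_mk.1 hp
    have hPp : Prime P := hP.prime
    let v : HeightOneSpectrum (𝓞 k) :=
      ⟨P, Ideal.isPrime_of_prime hPp, hPp.ne_zero⟩
    obtain ⟨j, hj⟩ := h v
    have h2 : v.valuation k (x : k) = v.intValuation x := v.valuation_of_algebraMap x
    rw [h2, v.intValuation_if_neg hx] at hj
    have h3 := WithZero.exp_injective hj
    have h4 : (N : ℤ) ∣ (((Associates.mk P).count
        (Associates.mk (Ideal.span {x} : Ideal (𝓞 k))).factors : ℕ) : ℤ) :=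
      ⟨-j, by linarith⟩
    exact Int.natCast_dvd_natCast.1 h4)
  obtain ⟨J, rfl⟩ := Associates.mk_surjective b
  rw [← Associates.mk_pow, Associates.mk_eq_mk_iff_associated, associated_iff_eq] at hb
  exact ⟨J, hb⟩

/-- `a` belongs to the ideal class `C` -/
def Cl (k : Type) [Field k] [NumberField k] (N : ℕ) (a : kˣ) (C : ClassGroup (𝓞 k)) : Prop :=
  ∃ (d x : 𝓞 k) (J : (Ideal (𝓞 k))⁰), d ≠ 0 ∧ x ≠ 0 ∧ (x : k) = (a : k) * (d : k) ^ N ∧
    Ideal.span {x} = (J : Ideal (𝓞 k)) ^ N ∧ ClassGroup.mk0 J = C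

theorem exists_cl (k : Type) [Field k] [NumberField k] (N : ℕ) (hN : 1 ≤ N) (a : kˣ)
    (h : ∀ v : HeightOneSpectrum (𝓞 k), ∃ j : ℤ,
      v.valuation k (a : k) = WithZero.exp (N * j)) : ∃ C, Cl k N a C := by
  obtain ⟨⟨n, d⟩, hnd⟩ := IsLocalization.surj (𝓞 k)⁰ (a : k)
  simp only at hnd
  have hd : (d : 𝓞 k) ≠ 0 := nonZeroDivisors.ne_zero d.2
  have hdk : (((d : 𝓞 k)) : k) ≠ 0 := by
    intro h0
    exact hd (by exact_mod_cast h0)
  have hn : n ≠ 0 := by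
    rintro rfl
    rw [map_zero] at hnd
    exact mul_ne_zero a.ne_zero hdk hnd
  have hx : ((n * (d : 𝓞 k) ^ (N - 1) : 𝓞 k) : k) = (a : k) * ((d : 𝓞 k) : k) ^ N := by
    have h1 : N = (N - 1) + 1 := by omega
    have h2 : (n : k) = (a : k) * ((d : 𝓞 k) : k) := hnd.symm
    calc ((n * (d : 𝓞 k) ^ (N - 1) : 𝓞 k) : k) = (n : k) * ((d : 𝓞 k) : k) ^ (N - 1) := by
          push_cast; rfl
      _ = (a : k) * ((d : 𝓞 k) : k) ^ ((N - 1) + 1) := by rw [h2]; ring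
      _ = _ := by rw [← h1]
  have hx0 : n * (d : 𝓞 k) ^ (N - 1) ≠ 0 := mul_ne_zero hn (pow_ne_zero _ hd)
  obtain ⟨J, hJ⟩ := span_pow k N (n * (d : 𝓞 k) ^ (N - 1)) hx0 (by
    intro v
    obtain ⟨j, hj⟩ := h v
    have h5 : v.valuation k (((d : 𝓞 k)) : k) = v.intValuation (d : 𝓞 k) :=
      v.valuation_of_algebraMap _
    rw [v.intValuation_if_neg hd] at h5
    refine ⟨j + -((Associates.mk v.asIdeal).count
      (Associates.mk (Ideal.span {(d : 𝓞 k)} : Ideal (𝓞 k))).factors : ℤ), ?_⟩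
    rw [hx, map_mul, map_pow, hj, h5, ← WithZero.exp_nsmul, ← WithZero.exp_add]
    congr 1
    rw [nsmul_eq_mul]
    ring)
  have hJ0 : J ≠ 0 := by
    rintro rfl
    rw [zero_pow (by omega)] at hJ
    exact hx0 (by simpa using hJ)
  exact ⟨ClassGroup.mk0 ⟨J, mem_nonZeroDivisors_of_ne_zero hJ0⟩, d, n * (d : 𝓞 k) ^ (N - 1),
    ⟨J, mem_nonZeroDivisors_of_ne_zero hJ0⟩, hd, hx0, hx, hJ, rfl⟩

theorem cl_same (k : Type) [Field k] [NumberField k] (N : ℕ) (a t : kˣ)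
    (C : ClassGroup (𝓞 k)) (ha : Cl k N a C) (ht : Cl k N t C) :
    ∃ (η : (𝓞 k)ˣ) (b : kˣ), (a : k) = (t : k) * ((η : 𝓞 k) : k) * (b : k) ^ N := by
  obtain ⟨d, x, J, hd, hx, hxa, hJ, hC⟩ := ha
  obtain ⟨d', x', J', hd', hx', hxt, hJ', hC'⟩ := ht
  rw [← hC', ClassGroup.mk0_eq_mk0_iff] at hC
  obtain ⟨u, w, hu, hw, he⟩ := hC
  have h1 : Ideal.span {u ^ N * x} = Ideal.span {w ^ N * x'} := by
    rw [← Ideal.span_singleton_mul_span_singleton, ← Ideal.span_singleton_mul_span_singleton,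
      ← Ideal.span_singleton_pow, ← Ideal.span_singleton_pow, hJ, hJ', ← mul_pow, ← mul_pow, he]
  rw [Ideal.span_singleton_eq_span_singleton] at h1
  obtain ⟨η, hη⟩ := h1
  have cz : ∀ z : 𝓞 k, z ≠ 0 → (z : k) ≠ 0 := fun z hz h0 => hz (by exact_mod_cast h0)
  have h2 : ((u : k)) ^ N * (x : k) * ((η : 𝓞 k) : k) = (w : k) ^ N * (x' : k) := by
    have := congrArg (fun z : 𝓞 k => (z : k)) hη
    push_cast at this
    exact this
  have hηk : ((η : 𝓞 k) : k) ≠ 0 := cz _ η.ne_zero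
  have hηi : ((η : 𝓞 k) : k) * (((η⁻¹ : (𝓞 k)ˣ) : 𝓞 k) : k) = 1 := by
    have : ((η : 𝓞 k)) * (((η⁻¹ : (𝓞 k)ˣ) : 𝓞 k)) = 1 := η.mul_inv
    have h3 := congrArg (fun z : 𝓞 k => (z : k)) this
    push_cast at h3
    exact h3
  have hb : ((d' : k) * (w : k) / ((u : k) * (d : k))) ≠ 0 :=
    div_ne_zero (mul_ne_zero (cz _ hd') (cz _ hw)) (mul_ne_zero (cz _ hu) (cz _ hd))
  refine ⟨η⁻¹, Units.mk0 _ hb, ?_⟩
  rw [Units.val_mk0]
  have hu' := cz _ hu
  have hd1 := cz _ hd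
  have h4 : (a : k) * (d : k) ^ N * (u : k) ^ N * ((η : 𝓞 k) : k) =
      (w : k) ^ N * ((t : k) * (d' : k) ^ N) := by
    rw [← hxt, ← h2, hxa]; ring
  have h5 : (((η⁻¹ : (𝓞 k)ˣ) : 𝓞 k) : k) = (((η : 𝓞 k) : k))⁻¹ :=
    eq_inv_of_mul_eq_one_right hηi
  rw [h5, div_pow, mul_pow, mul_pow]
  field_simp
  linear_combination h4

theorem cls : CLS := by
  intro k _ _ N hN
  classical
  let f : ClassGroup (𝓞 k) → kˣ := fun C => if h : ∃ a, Cl k N a C then h.choose else 1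
  refine ⟨Finset.univ.image f, ?_, ?_⟩
  · rw [Nat.card_eq_fintype_card]
    exact Finset.card_image_le.trans (by simp)
  · intro a ha
    obtain ⟨C, hC⟩ := exists_cl k N hN a ha
    have hex : ∃ a, Cl k N a C := ⟨a, hC⟩
    have hf : Cl k N (f C) C := by
      have : f C = hex.choose := by simp only [f, dif_pos hex]
      rw [this]
      exact hex.choose_spec
    exact ⟨f C, Finset.mem_image.2 ⟨C, Finset.mem_univ _, rfl⟩, cl_same k N a (f C) C hC hf⟩

end Pool.Agent.Y847.LC
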