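import Mathlib
import Pool.Agent.Y18.LC.Stm

/-!
# LC-KB (project LC of helper18): uniform bound for `E_{j + 1} / E_1 ^ (p ^ j)`
-/

set_option autoImplicit false

namespace Pool.Agent.Y847.LC

open Finset NumberField Pool.Agent.Y18.LC

/-- second order expansion of a power of `1 + p y` -/
theorem pow_exp {R : Type*} [CommRing R] (a : R) (i : ℕ) :
    ∃ c : R, (1 + a) ^ i = 1 + i * a + a ^ 2 * c := by
  induction i with
  | zero => exact ⟨0, by simp⟩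
  | succ i ih =>
    obtain ⟨c, hc⟩ := ih
    refine ⟨i + c + a * c, ?_⟩
    rw [pow_succ, hc]
    push_cast
    ring

theorem geom_exp {R : Type*} [CommRing R] {p : ℕ} (hodd : Odd p) (y : R) :
    ∃ z : R, ∑ i ∈ range p, (1 + (p : R) * y) ^ i = p * (1 + p * z) := by
  choose c hc using fun i : ℕ => pow_exp ((p : R) * y) i
  obtain ⟨m, hm⟩ := hodd
  have h1 : (∑ i ∈ range p, (i : R)) = (p : R) * (m : R) := by
    have h2 : (∑ i ∈ range p, i) * 2 = p * (p - 1) := Finset.sum_range_id_mul_two p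
    have h3 : (∑ i ∈ range p, i) = p * m := by
      have h4 : p - 1 = 2 * m := by omega
      rw [h4] at h2
      nlinarith
    have := congrArg (Nat.cast : ℕ → R) h3
    push_cast at this
    exact this
  refine ⟨y * m + y ^ 2 * ∑ i ∈ range p, c i, ?_⟩
  calc ∑ i ∈ range p, (1 + (p : R) * y) ^ i
      = ∑ i ∈ range p, (1 + (i : R) * (p * y) + (p * y) ^ 2 * c i) :=
        Finset.sum_congr rfl (fun i _ => hc i)
    _ = (p : R) + (∑ i ∈ range p, (i : R)) * (p * y) + (p * y) ^ 2 * ∑ i ∈ range p, c i := by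
        rw [Finset.sum_add_distrib, Finset.sum_add_distrib, Finset.sum_mul, Finset.mul_sum]
        simp
    _ = _ := by rw [h1]; ring

/-- the local lemma -/
theorem loc {R : Type*} [CommRing R] [IsDomain R] {p : ℕ} (hodd : Odd p) (hp0 : (p : R) ≠ 0)
    (w : R) (j : ℕ) (h1 : (p : R) ∣ w - 1) (h2 : (p : R) ^ (j + 1) ∣ w ^ p - 1) :
    (p : R) ^ j ∣ w - 1 := by
  obtain ⟨y, hy⟩ := h1
  have hw : w = 1 + p * y := by rw [← hy]; ring
  obtain ⟨z, hz⟩ := geom_exp (R := R) hodd y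
  have h3 : w ^ p - 1 = p ^ 2 * (y * (1 + p * z)) := by
    rw [← mul_geom_sum, hw, hz]; ring
  rcases Nat.lt_or_ge j 2 with hj | hj
  · have h4 : (p : R) ^ j ∣ (p : R) ^ 1 := pow_dvd_pow _ (by omega)
    rw [hy]
    exact Dvd.dvd.mul_right (by simpa using h4) y
  · obtain ⟨i, rfl⟩ : ∃ i, j = i + 1 := ⟨j - 1, by omega⟩
    rw [h3] at h2
    have h5 : (p : R) ^ i ∣ y * (1 + p * z) := by
      have h6 : (p : R) ^ (i + 1 + 1) = p ^ 2 * p ^ i := by ring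
      rw [h6] at h2
      exact (mul_dvd_mul_iff_left (pow_ne_zero 2 hp0)).1 h2
    have hc : IsCoprime ((p : R) ^ i) (1 + p * z) := by
      apply IsCoprime.pow_left
      exact ⟨-z, 1, by ring⟩
    have h7 : (p : R) ^ i ∣ y := hc.dvd_of_dvd_mul_right h5
    rw [hy, pow_succ, mul_comm]
    exact mul_dvd_mul_left _ h7

theorem rad_one {R : Type*} [CommRing R] {p : ℕ} (hp : p.Prime)
    (hr : (Ideal.span {(p : R)}).IsRadical) (w : R) (h : (p : R) ∣ w ^ p - 1) :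
    (p : R) ∣ w - 1 := by
  obtain ⟨r, hr2⟩ := exists_add_pow_prime_eq hp (w - 1) 1
  have h1 : (w - 1) ^ p = (w ^ p - 1) - p * ((w - 1) * r) := by
    have : w ^ p = (w - 1) ^ p + 1 ^ p + p * (w - 1) * 1 * r := by rw [← hr2]; ring
    rw [this]; ring
  have h2 : (w - 1) ^ p ∈ Ideal.span {(p : R)} := by
    rw [Ideal.mem_span_singleton, h1]
    exact dvd_sub h (Dvd.intro _ rfl)
  have h3 : w - 1 ∈ (Ideal.span {(p : R)}).radical := ⟨p, h2⟩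
  exact Ideal.mem_span_singleton.1 (hr h3)

/-- finitely many classes modulo `N`-th powers -/
theorem fin_pow (k : Type) [Field k] [NumberField k] (N : ℕ) (hN : 0 < N) :
    ∃ T : Finset (𝓞 k)ˣ, ∀ w : (𝓞 k)ˣ, ∃ r ∈ T, ∃ u : (𝓞 k)ˣ, w = r * u ^ N := by
  classical
  let H : Subgroup (𝓞 k)ˣ := (powMonoidHom N : (𝓞 k)ˣ →* (𝓞 k)ˣ).range
  haveI : Group.FG (𝓞 k)ˣ := Group.fg_iff_monoid_fg.2 inferInstance
  haveI : Group.FG ((𝓞 k)ˣ ⧸ H) := inferInstance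
  haveI : Finite ((𝓞 k)ˣ ⧸ H) := by
    apply CommGroup.finite_of_fg_torsion
    intro x
    induction x using QuotientGroup.induction_on with
    | H x =>
      rw [isOfFinOrder_iff_pow_eq_one]
      refine ⟨N, hN, ?_⟩
      rw [← QuotientGroup.mk_pow, QuotientGroup.eq_one_iff]
      exact ⟨x, rfl⟩
  haveI := Fintype.ofFinite ((𝓞 k)ˣ ⧸ H)
  refine ⟨Finset.univ.image (fun q : (𝓞 k)ˣ ⧸ H => q.out), fun w => ?_⟩
  refine ⟨((w : (𝓞 k)ˣ ⧸ H)).out, Finset.mem_image.2 ⟨_, Finset.mem_univ _, rfl⟩, ?_⟩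
  have h1 : (((w : (𝓞 k)ˣ ⧸ H)).out : (𝓞 k)ˣ ⧸ H) = (w : (𝓞 k)ˣ ⧸ H) := QuotientGroup.out_eq' _
  rw [QuotientGroup.eq] at h1
  obtain ⟨u, hu⟩ := h1
  refine ⟨u, ?_⟩
  have hu2 : u ^ N = ((w : (𝓞 k)ˣ ⧸ H)).out⁻¹ * w := hu
  rw [hu2]
  group

/-- the exponent of the units modulo `p` -/
theorem exp_one (k : Type) [Field k] [NumberField k] (p : ℕ) (hp : p ≠ 0) :
    ∃ t : ℕ, 0 < t ∧ ∀ u : (𝓞 k)ˣ, (p : 𝓞 k) ∣ ((u ^ t : (𝓞 k)ˣ) : 𝓞 k) - 1 := by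
  have hp0 : (p : 𝓞 k) ≠ 0 := by exact_mod_cast hp
  let I : Ideal (𝓞 k) := Ideal.span {(p : 𝓞 k)}
  have hI : I ≠ ⊥ := by
    intro h
    exact hp0 (Ideal.span_singleton_eq_bot.1 h)
  haveI : Finite (𝓞 k ⧸ I) := Ideal.finiteQuotientOfFreeOfNeBot I hI
  refine ⟨Nat.card (𝓞 k ⧸ I)ˣ, Nat.card_pos, fun u => ?_⟩
  have h1 : (Units.map (Ideal.Quotient.mk I : 𝓞 k →* 𝓞 k ⧸ I) u) ^ Nat.card (𝓞 k ⧸ I)ˣ = 1 :=
    pow_card_eq_one'
  rw [← map_pow] at h1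
  have h2 := congrArg Units.val h1
  have h3 : Ideal.Quotient.mk I (((u ^ Nat.card (𝓞 k ⧸ I)ˣ : (𝓞 k)ˣ) : 𝓞 k)) =
      Ideal.Quotient.mk I 1 := by
    rw [map_one]
    exact h2
  rw [Ideal.Quotient.eq] at h3
  exact Ideal.mem_span_singleton.1 h3

theorem pow_one_dvd {R : Type*} [CommRing R] (a : R) (u : R) (n : ℕ) (h : a ∣ u - 1) :
    a ∣ u ^ n - 1 := by
  have := sub_dvd_pow_sub_pow u 1 n
  rw [one_pow] at this
  exact h.trans this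

/-- iteration: units very close to `1` are highly divisible -/
theorem iter (k : Type) [Field k] [NumberField k] (p : ℕ) (hp : p.Prime) (hodd : Odd p)
    (hr : (Ideal.span {(p : 𝓞 k)}).IsRadical) (M : ℕ) (hM : 1 ≤ M)
    (hT : ∀ u : (𝓞 k)ˣ, (p : 𝓞 k) ^ M ∣ ((u : 𝓞 k) - 1) → ∃ w : (𝓞 k)ˣ, w ^ p = u) (s : ℕ) :
    ∀ θ : (𝓞 k)ˣ, (p : 𝓞 k) ^ (M + s) ∣ ((θ : 𝓞 k) - 1) → ∃ w : (𝓞 k)ˣ,
      θ = w ^ p ^ (s + 1) := by
  have hp0 : (p : 𝓞 k) ≠ 0 := by exact_mod_cast hp.ne_zero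
  induction s with
  | zero =>
    intro θ hθ
    obtain ⟨w, hw⟩ := hT θ (by simpa using hθ)
    exact ⟨w, by rw [zero_add, pow_one, hw]⟩
  | succ s ih =>
    intro θ hθ
    obtain ⟨w, hw⟩ := hT θ ((pow_dvd_pow _ (by omega)).trans hθ)
    have hw2 : ((θ : (𝓞 k)ˣ) : 𝓞 k) = (w : 𝓞 k) ^ p := by rw [← hw]; simp
    have h1 : (p : 𝓞 k) ∣ (w : 𝓞 k) - 1 := by
      apply rad_one hp hr
      rw [← hw2]
      have h2 : (p : 𝓞 k) ∣ (p : 𝓞 k) ^ (M + (s + 1)) := dvd_pow_self _ (by omega)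
      exact h2.trans hθ
    have h3 : (p : 𝓞 k) ^ (M + s) ∣ (w : 𝓞 k) - 1 := by
      apply loc hodd hp0 _ _ h1
      rw [← hw2]
      exact hθ
    obtain ⟨v, hv⟩ := ih w h3
    refine ⟨v, ?_⟩
    rw [← hw, hv, ← pow_mul, ← pow_succ]

theorem kb : KB := by
  intro k _ _ p _ hp2 hr hTop
  classical
  have hp : p.Prime := Fact.out
  have hodd : Odd p := hp.odd_of_ne_two hp2
  obtain ⟨M₀, hM₀⟩ := hTop 1
  let M := M₀ + 1
  have hT : ∀ u : (𝓞 k)ˣ, (p : 𝓞 k) ^ M ∣ ((u : 𝓞 k) - 1) → ∃ w : (𝓞 k)ˣ, w ^ p = u := by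
    intro u hu
    obtain ⟨w, hw⟩ := hM₀ u ((pow_dvd_pow _ (Nat.le_succ _)).trans hu)
    exact ⟨w, by simpa using hw⟩
  obtain ⟨t, ht, hone⟩ := exp_one k p hp.ne_zero
  obtain ⟨T, hTf⟩ := fin_pow k (t * p ^ M) (Nat.mul_pos ht (pow_pos hp.pos _))
  refine ⟨T.card, fun j => ?_⟩
  rcases Nat.lt_or_ge (j + 1) M with hj | hj
  · refine ⟨T, le_rfl, fun θ _ => ?_⟩
    obtain ⟨r, hr1, u, hu⟩ := hTf θ
    refine ⟨r, hr1, (u ^ t) ^ p ^ (M - j), ?_, ?_⟩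
    · rw [Units.val_pow_eq_pow_val]
      exact pow_one_dvd _ _ _ (hone u)
    · have h5 : t * p ^ M = t * p ^ (M - j) * p ^ j := by
        rw [mul_assoc, ← pow_add]
        congr 2
        omega
      rw [hu, ← pow_mul, ← pow_mul, h5, mul_assoc]
  · obtain ⟨s, hs⟩ : ∃ s, j + 1 = M + s := ⟨j + 1 - M, by omega⟩
    refine ⟨T.image (fun r => r ^ p ^ (s + 1)), Finset.card_image_le, fun θ hθ => ?_⟩
    rw [hs] at hθ
    obtain ⟨w, hw⟩ := iter k p hp hodd hr M (by omega) hT s θ hθ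
    obtain ⟨r, hr1, u, hu⟩ := hTf w
    refine ⟨r ^ p ^ (s + 1), Finset.mem_image.2 ⟨r, hr1, rfl⟩, (u ^ t) ^ p ^ 2, ?_, ?_⟩
    · rw [Units.val_pow_eq_pow_val]
      exact pow_one_dvd _ _ _ (hone u)
    · have h5 : t * p ^ M * p ^ (s + 1) = t * p ^ 2 * p ^ j := by
        rw [mul_assoc, mul_assoc, ← pow_add, ← pow_add]
        congr 2
        omega
      rw [hw, hu, mul_pow, ← pow_mul u, h5, ← pow_mul u, ← pow_mul u]

end Pool.Agent.Y847.LC
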